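import Pool.Agent.Y596.KO.Trade

/-!
# Replacing an oracle by a finite condition: the exact trade-off between error and length

`condC D s y` is the plain complexity `C (s | y)` for the optimal conditional decompressor `D`, and
`oracleC V s` the plain complexity `C^X (s)` for the optimal decompressor `V` with oracle `X`;
`Nat.size n` is the number of binary digits of `n`.

If the complexities of all strings of length at most `n` may be changed by an error `E n`, the
necessary and sufficient length of the condition is `2 ^ (n - E n)`, up to a factor polynomial in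
`n`. The lower bound holds even if only one inequality, `C (s | y) ≤ C^X (s) + E n`, is required.
-/

set_option autoImplicit false

namespace Pool.Agent.Results.MP_d04dff_lc.ErrorAgainstLength

open Pool.Agent.Helper760.OracleC Filter

/-- **Conditions which replace an oracle with error `E n` have length `2 ^ (n - E n)`, up to a
polynomial factor.** -/
theorem result :
    (∃ D : List Bool → List Bool →. List Bool, OptimalCond D) ∧
    (∀ X : ℕ → Bool, ∃ V : List Bool →. List Bool, OptimalIn X V) ∧
    (∀ (X : ℕ → Bool) (D : List Bool → List Bool →. List Bool), OptimalCond D →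
      ∀ V : List Bool →. List Bool, OptimalIn X V →
      ∃ c : ℕ, ∀ n e : ℕ, e ≤ n → ∃ x : List Bool, x.length = (2 * n + 4) * 2 ^ (n - e + 2) ∧
        ∀ s : List Bool, s.length ≤ n →
          condC D s x ≤ oracleC V s + (e + 4 * Nat.size n + c) ∧
          oracleC V s ≤ condC D s x + (e + 4 * Nat.size n + c)) ∧
    ∀ E : ℕ → ℕ, (∀ᶠ n : ℕ in atTop, E n + 3 * Nat.size n + 3 ≤ n) →
      ∃ X : ℕ → Bool, ∀ D : List Bool → List Bool →. List Bool, OptimalCond D →
        ∀ V : List Bool →. List Bool, OptimalIn X V → ∀ᶠ n : ℕ in atTop,
          ∀ y : List Bool, (∀ s : List Bool, s.length ≤ n → condC D s y ≤ oracleC V s + E n) →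
            2 ^ (n - (E n + 3 * Nat.size n + 3)) < y.length := by
  refine ⟨exists_optimalCond, exists_optimalIn, fun X D hD V hV => ?_,
    Pool.Agent.Y596.KO.lowerE⟩
  obtain ⟨c, hc⟩ := Pool.Agent.H613R2.OSim.simulate2 X D hD V hV
  refine ⟨c, fun n e he => ?_⟩
  obtain ⟨x, h1, h2⟩ := hc n (n - e) (Nat.sub_le _ _)
  refine ⟨x, h1, fun s hs => ?_⟩
  obtain ⟨h3, h4⟩ := h2 s hs
  have h5 : n - (n - e) = e := by omega
  rw [h5] at h3 h4
  omega

end Pool.Agent.Results.MP_d04dff_lc.ErrorAgainstLength
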